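import Pool.Agent.Helper62.GR.Goals

/-!
# Project GR: packets FPI (finite presentability does not depend on the generators) and NFP
-/

set_option autoImplicit false

namespace Pool.Agent.Helper62.GR

open Equiv Pool.Agent.Helper62.WB

theorem fpi : G_FPI := by
  classical
  intro G _ hG ι _ π hπ
  obtain ⟨k, α, R, hα, hker⟩ := hG
  -- the lifts
  set β : FreeGroup (Fin k) →* FreeGroup ι := FreeGroup.lift
    (fun i => (hπ (α (FreeGroup.of i))).choose) with hβ
  have hβ1 : ∀ x, π (β x) = α x := by
    intro x
    have : π.comp β = α := by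
      ext i
      simp only [MonoidHom.comp_apply, hβ, FreeGroup.lift_apply_of]
      exact (hπ (α (FreeGroup.of i))).choose_spec
    exact DFunLike.congr_fun this x
  set γ : FreeGroup ι →* FreeGroup (Fin k) := FreeGroup.lift
    (fun i => (hα (π (FreeGroup.of i))).choose) with hγ
  have hγ1 : ∀ x, α (γ x) = π x := by
    intro x
    have : α.comp γ = π := by
      ext i
      simp only [MonoidHom.comp_apply, hγ, FreeGroup.lift_apply_of]
      exact (hα (π (FreeGroup.of i))).choose_spec
    exact DFunLike.congr_fun this x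
  set S : Finset (FreeGroup ι) := R.image β ∪
    Finset.univ.image (fun i : ι => (FreeGroup.of i)⁻¹ * β (γ (FreeGroup.of i))) with hS
  refine ⟨S, ?_⟩
  set M := Subgroup.normalClosure (S : Set (FreeGroup ι)) with hM
  have hMn : M.Normal := Subgroup.normalClosure_normal
  apply le_antisymm
  · have h1 : ∀ x : FreeGroup ι, x⁻¹ * β (γ x) ∈ M := by
      intro x
      have h2 : (QuotientGroup.mk' M) = ((QuotientGroup.mk' M).comp (β.comp γ)) := by
        ext i
        simp only [MonoidHom.comp_apply, QuotientGroup.mk'_apply]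
        rw [QuotientGroup.eq]
        apply Subgroup.subset_normalClosure
        rw [hS]
        simp
      have h3 := DFunLike.congr_fun h2 x
      simp only [MonoidHom.comp_apply, QuotientGroup.mk'_apply] at h3
      rwa [QuotientGroup.eq] at h3
    intro x hx
    have h4 : γ x ∈ α.ker := by
      rw [MonoidHom.mem_ker, hγ1]
      exact hx
    rw [hker] at h4
    have h5 : Subgroup.normalClosure (R : Set (FreeGroup (Fin k))) ≤ M.comap β := by
      apply Subgroup.normalClosure_le_normal
      intro r hr
      show β r ∈ M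
      apply Subgroup.subset_normalClosure
      rw [hS]
      simp only [Finset.coe_union, Finset.coe_image, Set.mem_union, Set.mem_image]
      exact Or.inl ⟨r, hr, rfl⟩
    have h6 : β (γ x) ∈ M := h5 h4
    have h7 := M.mul_mem h6 (M.inv_mem (h1 x))
    have h8 : β (γ x) * (x⁻¹ * β (γ x))⁻¹ = x := by group
    rwa [h8] at h7
  · apply Subgroup.normalClosure_le_normal
    intro s hs
    rw [hS] at hs
    simp only [Finset.coe_union, Finset.coe_image, Set.mem_union, Set.mem_image] at hs
    rcases hs with ⟨r, hr, rfl⟩ | ⟨i, -, rfl⟩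
    · show π (β r) = 1
      rw [hβ1, ← MonoidHom.mem_ker, hker]
      exact Subgroup.subset_normalClosure hr
    · show π _ = 1
      rw [map_mul, map_inv, hβ1, hγ1, inv_mul_cancel]

instance : Fintype Lt := ⟨{Lt.a, Lt.b, Lt.c, Lt.d}, fun x => by cases x <;> simp⟩

theorem lt_mem (l : Lt) : lt l ∈ GG := by
  cases l
  · exact ga_mem
  · exact gs_mem 0
  · exact gs_mem 1
  · exact gs_mem 2

theorem piF_mem (w : FreeGroup Lt) : piF w ∈ GG := by
  induction w using FreeGroup.induction_on with
  | C1 => simp
  | of l => simpa [piF] using lt_mem l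
  | inv_of l h => simpa [piF] using lt_mem l
  | mul x y hx hy => rw [map_mul]; exact GG.mul_mem hx hy

theorem nfp (hKN : G_KN) (hKU : G_KU) (hKS : G_KS) : G_NFP := by
  intro hFP
  set π : FreeGroup Lt →* GG := piF.codRestrict GG piF_mem with hπ
  have hsurj : Function.Surjective π := by
    intro g
    have : ∀ g ∈ GG, ∃ w, piF w = g := by
      apply GG_induction
      · exact ⟨1, map_one _⟩
      · rintro g - ⟨w, rfl⟩
        exact ⟨FreeGroup.of .a * w, by rw [map_mul]; simp [piF, lt]⟩
      · rintro s g - ⟨w, rfl⟩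
        rw [gs_mod]
        have : s % 3 = 0 ∨ s % 3 = 1 ∨ s % 3 = 2 := by omega
        rcases this with h | h | h
        · rw [h]
          exact ⟨FreeGroup.of .b * w, by rw [map_mul]; simp [piF, lt]⟩
        · rw [h]
          exact ⟨FreeGroup.of .c * w, by rw [map_mul]; simp [piF, lt]⟩
        · rw [h]
          exact ⟨FreeGroup.of .d * w, by rw [map_mul]; simp [piF, lt]⟩
    obtain ⟨w, hw⟩ := this g g.2
    exact ⟨w, Subtype.ext hw⟩
  obtain ⟨R, hR⟩ := fpi GG hFP Lt π hsurj
  have hmono : ∀ k m, k ≤ m → KK k ⊆ KK m := by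
    intro k m hkm
    induction hkm with
    | refl => exact subset_rfl
    | step _ ih => exact ih.trans (hKN.2.1 _)
  have hall : ∀ w ∈ R, ∃ k, w ∈ KK k := by
    intro w hw
    apply hKU
    have h1 : w ∈ π.ker := by
      rw [hR]
      exact Subgroup.subset_normalClosure hw
    have h2 : π w = 1 := h1
    have := congrArg (Subtype.val) h2
    simpa [hπ] using this
  choose! κ hκ using hall
  obtain ⟨S, hSn, hS⟩ := hKN.1 (R.sup κ)
  have h1 : π.ker ≤ S := by
    rw [hR]
    apply Subgroup.normalClosure_le_normal
    intro w hw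
    rw [hS]
    exact hmono _ _ (Finset.le_sup hw) (hκ w hw)
  obtain ⟨w, hw1, hw2⟩ := hKS (R.sup κ)
  apply hw2
  rw [← hS]
  apply h1
  show π w = 1
  apply Subtype.ext
  exact hKN.2.2 _ w hw1

end Pool.Agent.Helper62.GR
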