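import Pool.Agent.Helper62.GR.Goals

/-!
# Project GR: packets S5 (going up) and DN (a dense injective endomorphism has an inner power)
-/

set_option autoImplicit false

namespace Pool.Agent.Helper62.GR

open Equiv Pool.Agent.Helper62.WB

theorem Nm_pow (hNS : G_NS) {f : Perm X} (hf : Nm f) (n : ℕ) : Nm (f ^ n) := by
  induction n with
  | zero => simpa using hNS.2.2.2.2.1 1 (Subgroup.one_mem _)
  | succ n ih => rw [pow_succ]; exact hNS.2.2.2.1 _ _ ih hf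

theorem s5 (hFIN : G_FIN) (hNS : G_NS) : G_S5 := by
  intro f h hUp
  induction hUp with
  | refl f => exact fun _ _ hf => ⟨1, le_rfl, by simpa using hf⟩
  | step g0 g1 h _ ih =>
    intro hN hx hh
    have h1 : g1 xi = xi := by
      rw [← cn_xi, pr_true] at hx
      have h2 := (cn_inj hx).2
      exact h2
    obtain ⟨j, hj, hj2⟩ := ih (hNS.1 g0 g1 hN).2 h1 hh
    have h3 : Nm (pr (g0 ^ j) (g1 ^ j)) := by
      rw [← pr_pow]
      exact Nm_pow hNS hN j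
    have h4 := hNS.2.2.1 _ _ h3
    have h5 : g0 ^ j ∈ GG := by
      have := GG.mul_mem h4 hj2
      simpa using this
    refine ⟨j * 4, by omega, ?_⟩
    rw [pow_mul, pr_pow]
    exact hFIN _ h5 _ hj2

theorem pow_mul_mem {f : Perm X} (hN : ∀ g ∈ GG, f * g * f⁻¹ ∈ GG) {γ : Perm X} (hγ : γ ∈ GG) :
    ∀ n, ∃ δ ∈ GG, (γ * f) ^ n = δ * f ^ n := by
  intro n
  induction n with
  | zero => exact ⟨1, Subgroup.one_mem _, by simp⟩
  | succ n ih =>
    obtain ⟨δ, hδ, h⟩ := ih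
    refine ⟨γ * (f * δ * f⁻¹), GG.mul_mem hγ (hN δ hδ), ?_⟩
    rw [pow_succ', h, pow_succ']
    group

theorem Up_trans {f g h : Perm X} (h1 : Up f g) (h2 : Up g h) : Up f h := by
  induction h1 with
  | refl _ => exact h2
  | step g0 g1 k _ ih => exact Up.step _ _ _ (ih h2)

theorem dn (hAU : G_AU) (hNS : G_NS) (hSG : G_SG) (hS3 : G_S3) (hS4 : G_S4) (hS5 : G_S5)
    (hST : G_ST) : G_DN := by
  intro σ hσ hd
  obtain ⟨f, hf1, hf2, hf3⟩ := (hST σ hσ).2 hd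
  have hconj : ∀ g : GG, f * (g : Perm X) * f⁻¹ = (σ g : Perm X) := by
    intro g
    rw [hf3, mul_inv_cancel_right]
  have hSN : SN f := by
    refine ⟨hf1, hf2, fun g hg => ?_, fun n g hg => ?_⟩
    · have := hconj ⟨g, hg⟩
      rw [this]
      exact (σ ⟨g, hg⟩).2
    · obtain ⟨h, hh⟩ := hd n ⟨g, hg⟩
      exact ⟨h, h.2, fun x => by rw [hconj]; exact hh x⟩
  have hNm : Nm f := hAU f hSN
  obtain ⟨γ, hγ, hγ2⟩ := hNS.2.2.2.2.2 hSG f hNm
  have hNm2 : Nm (γ * f) := hNS.2.2.2.1 _ _ (hNS.2.2.2.2.1 γ hγ) hNm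
  have hx : (γ * f) xi = xi := hγ2
  obtain ⟨h, hUp, hN3, hx3, hcomm⟩ := hS3 _ hNm2 hx
  obtain ⟨h', hUp', hh'⟩ := hS4 h hN3 hx3 hcomm
  have hUp2 : Up (γ * f) h' := Up_trans hUp hUp'
  obtain ⟨j, hj, hj2⟩ := hS5 _ _ hUp2 hNm2 hx hh'
  obtain ⟨δ, hδ, hδ2⟩ := pow_mul_mem hNm.2 hγ j
  have hfj : f ^ j ∈ GG := by
    have h1 : f ^ j = δ⁻¹ * (γ * f) ^ j := by rw [hδ2, inv_mul_cancel_left]
    rw [h1]
    exact GG.mul_mem (GG.inv_mem hδ) hj2
  refine ⟨j, ⟨f ^ j, hfj⟩, hj, fun g => ?_⟩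
  have key : ∀ n (g : GG), f ^ n * (g : Perm X) * (f ^ n)⁻¹ = ((σ^[n] g : GG) : Perm X) := by
    intro n
    induction n with
    | zero => intro g; simp
    | succ n ih =>
      intro g
      rw [Function.iterate_succ_apply', ← hconj, ← ih, pow_succ']
      group
  apply Subtype.ext
  rw [← key j g]
  simp

end Pool.Agent.Helper62.GR
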