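import Pool.Agent.Helper62.GR.Goals
import Pool.Agent.Helper62.WB.Final

/-!
# Project GR: packet ST (the homeomorphism)
-/

set_option autoImplicit false

namespace Pool.Agent.Helper62.GR

open Equiv Pool.Agent.Helper62.WB

theorem GG_fg : Group.FG GG := by
  rw [Group.fg_iff_subgroup_fg]
  have : ({ga, gs 0, gs 1, gs 2} : Set (Perm X)).Finite := by simp
  exact ⟨this.toFinset, by rw [Set.Finite.coe_toFinset]; rfl⟩

theorem st (hTR : G_TR) : G_ST := by
  intro σ hσ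
  obtain ⟨T, a, e, hWB, hact, hagr⟩ := hTR
  have hbd : ∀ (g : GG) (x : X) (n : ℕ), a.act n g ((e x).1 n) = (e ((g : Perm X) x)).1 n := by
    intro g x n
    rw [hact, TAct.bd_apply]
  have hdense : a.Dense σ ↔ Dns σ := by
    constructor
    · intro h n g
      obtain ⟨k, hk⟩ := h n g
      refine ⟨k, fun x => ?_⟩
      rw [← hagr, ← hbd, ← hbd, hk]
    · intro h n g
      obtain ⟨k, hk⟩ := h n g
      refine ⟨k, ?_⟩
      ext1 v
      obtain ⟨z, hz⟩ := exists_bd T n v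
      obtain ⟨x, rfl⟩ := e.surjective z
      rw [← hz, hbd, hbd, hagr]
      exact hk x
  have hRB : StmtRB := Pool.Agent.Helper30.WB.rb
  have hTP : StmtTP := Pool.Agent.Helper35.WB.tp hRB
  have h0 : StmtS0 := Pool.Agent.Helper48.WB.s0
  have h1 : StmtS1 := Pool.Agent.Helper93.WB.s1 hRB h0
  have h2 : StmtS2 := Pool.Agent.Helper86.WB.s2 h0
  have hS3 : StmtS3 := Pool.Agent.Helper13.WB.s3 h0 h1 h2
  refine ⟨?_, fun hd => ?_⟩
  · rw [← hdense]
    exact (main.2 T GG a hWB GG_fg σ hσ).1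
  · rw [← hdense] at hd
    have hc1 : ∀ n, ∃ m, ∀ g, a.act m g = 1 → a.act n (σ g) = 1 := by
      intro n
      obtain ⟨C, hC1, hC2, hC3, hC4, m, hm⟩ := hTP T GG a GG_fg hWB σ hσ hd n
      exact ⟨m, fun g hg => hC3 ((hC4 g).2 (hm hg))⟩
    have hc2 : ∀ n, ∃ m, ∀ g, a.act m (σ g) = 1 → a.act n g = 1 := by
      intro n
      obtain ⟨C, hC1, hC2, hC3, hC4, m, hm⟩ := hTP T GG a GG_fg hWB σ hσ hd n
      exact ⟨m, fun g hg => hC3 ((hC4 g).1 (hm hg))⟩
    obtain ⟨D, _, b, ι, τ, hb, hι, hdense2, hτ, hτ1, hτ2⟩ :=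
      Pool.Agent.Helper12.WB.cl T GG a hWB σ hd hc1 hc2
    obtain ⟨f, hf1, hf2, hf3⟩ := hS3 T D b τ ⟨hb, hτ1, hτ2⟩
    have hbd2 : ∀ g, b.bd (ι g) = a.bd g := by
      intro g
      ext x
      apply Subtype.ext
      funext n
      rw [TAct.bd_apply, TAct.bd_apply, hι]
    have hct : ∀ p : Perm T.Bd, Cts p → CtX (e.trans (p.trans e.symm)) := by
      intro p hp x n
      obtain ⟨k, hk⟩ := hp (e x) n
      refine ⟨k, fun y hy => ?_⟩
      rw [← hagr]
      have h3 := hk (e y) (((hagr k x y).2 hy).symm)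
      simpa using h3.symm
    refine ⟨e.trans (f.trans e.symm), hct f hf1, ?_, fun g => ?_⟩
    · exact hct f⁻¹ hf2
    · ext1 x
      show e.symm (f (e ((g : Perm X) x))) = (σ g : Perm X) (e.symm (f (e x)))
      rw [Equiv.symm_apply_eq, hact, hact, Equiv.apply_symm_apply, ← hbd2, ← hbd2, hf3, hτ]

end Pool.Agent.Helper62.GR
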