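import Pool.Agent.Helper62.GR.Stmt
import Pool.Agent.Helper62.GR.ST
import Pool.Agent.Helper62.GR.S5
import Pool.Agent.Helper62.GR.FPI
import Pool.Agent.Helper11.PS.MainV

/-!
# Project GR: the main theorem from the packets
-/

set_option autoImplicit false

namespace Pool.Agent.Helper62.GR

open Equiv Pool.Agent.Helper62.WB Pool.Agent.Helper11.PS

/-- the statement of the main theorem, for the subgroup `GG` -/
def G_MAIN0 : Prop :=
  (∀ (Q : Type) [Group Q], RF Q → ∀ i : GG →* Q, Function.Injective i → ∀ (σ : GG →* GG) (t : Q),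
    (∀ g, t * i g * t⁻¹ = i (σ g)) → Function.Surjective σ ∧
      ∃ (j : ℕ) (γ : GG), 1 ≤ j ∧ ∀ g, σ^[j] g = γ * g * γ⁻¹) ∧
  (∀ (σ : GG →* GG) (hσ : Function.Injective σ), RF (Asc σ hσ) ↔ Function.Surjective σ) ∧
  (∀ (Q : Type) [Group Q], RF Q → FP Q → ∀ (H : Subgroup Q), H.FiniteIndex →
    ∀ (σ : GG →* GG) (hσ : Function.Injective σ), IsEmpty (H ≃* Asc σ hσ)) ∧
  (∀ (G : Type) [Group G], Amen G → (VStable G ∨ StableS G) → FP G → ∀ (N : Subgroup G) [N.Normal],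
    N.FG → ∀ (H : Subgroup (G ⧸ N)), H.FiniteIndex →
    ∀ (σ : GG →* GG) (hσ : Function.Injective σ), IsEmpty (H ≃* Asc σ hσ))

/-- the statement of the main theorem -/
def G_MAIN : Prop :=
  (∀ (Q : Type) [Group Q], RF Q → NoProperConj Q) ∧
  (∀ (σ : Gri →* Gri) (hσ : Function.Injective σ), RF (Asc σ hσ) ↔ Function.Surjective σ) ∧
  (∀ (Q : Type) [Group Q], RF Q → FP Q → NoAsc Q) ∧
  (∀ (G : Type) [Group G], Amen G → (VStable G ∨ StableS G) → FP G → ∀ (N : Subgroup G) [N.Normal],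
    N.FG → NoAsc (G ⧸ N))

theorem main_of_main0 (h : G_MAIN0) : G_MAIN :=
  ⟨fun Q _ hQ => h.1 Q hQ, h.2.1, fun Q _ h1 h2 => h.2.2.1 Q h1 h2,
    fun G _ h1 h2 h3 N _ h4 => h.2.2.2 G h1 h2 h3 N h4⟩

theorem surj_of_iterate {σ : GG →* GG} {j : ℕ} {γ : GG} (hj : 1 ≤ j)
    (h : ∀ g, σ^[j] g = γ * g * γ⁻¹) : Function.Surjective σ := by
  intro x
  obtain ⟨k, rfl⟩ := Nat.exists_eq_add_of_le hj
  refine ⟨σ^[k] (γ⁻¹ * x * γ), ?_⟩
  rw [← Function.iterate_succ_apply' σ, show k.succ = 1 + k by omega, h]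
  group

theorem FP_of_equiv {G H : Type} [Group G] [Group H] (e : G ≃* H) (hG : FP G) : FP H := by
  obtain ⟨k, π, R, h1, h2⟩ := hG
  refine ⟨k, e.toMonoidHom.comp π, R, e.surjective.comp h1, ?_⟩
  rw [← h2]
  ext x
  simp [MonoidHom.mem_ker]

theorem RF_subgroup {G : Type} [Group G] (hG : RF G) (H : Subgroup G) : RF H := by
  intro x hx
  obtain ⟨K, hK, hK2, hK3⟩ := hG x (fun h => hx (Subtype.ext h))
  exact ⟨K.subgroupOf H, hK.subgroupOf H, inferInstance, hK3⟩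

theorem main_of (hTR : G_TR) (hDN : G_DN) (hRS : G_RS) (hS6 : G_S6) (hNFP : G_NFP) : G_MAIN0 := by
  have hST : G_ST := st hTR
  have hRB : StmtRB := Pool.Agent.Helper30.WB.rb
  have hdense : ∀ (Q : Type) [Group Q], RF Q → ∀ i : GG →* Q, Function.Injective i →
      ∀ (σ : GG →* GG) (t : Q), (∀ g, t * i g * t⁻¹ = i (σ g)) → Dns σ := by
    intro Q _ hRF i hi σ t ht
    obtain ⟨T, a, e, hWB, hact, hagr⟩ := hTR
    have h := hRB.2 T GG Q a hWB hRF i hi σ t ht
    intro n g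
    obtain ⟨k, hk⟩ := h n g
    have hbd : ∀ (g : GG) (x : X) (n : ℕ), a.act n g ((e x).1 n) = (e ((g : Perm X) x)).1 n := by
      intro g x n
      rw [hact, TAct.bd_apply]
    refine ⟨k, fun x => ?_⟩
    rw [← hagr, ← hbd, ← hbd, hk]
  have hsurj : ∀ (σ : GG →* GG) (hσ : Function.Injective σ), RF (Asc σ hσ) ↔
      Function.Surjective σ := by
    intro σ hσ
    rw [(hST σ hσ).1]
    constructor
    · intro hd
      obtain ⟨j, γ, hj, h⟩ := hDN σ hσ hd
      exact surj_of_iterate hj h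
    · intro hs n g
      obtain ⟨h, rfl⟩ := hs g
      exact ⟨h, fun x => Agr.refl _ _⟩
  have hno : ∀ (Q : Type) [Group Q], RF Q → FP Q → ∀ (H : Subgroup Q), H.FiniteIndex →
      ∀ (σ : GG →* GG) (hσ : Function.Injective σ), IsEmpty (H ≃* Asc σ hσ) := by
    intro Q _ hRF hFP H hH σ hσ
    refine ⟨fun e => hNFP ?_⟩
    have h1 : RF (Asc σ hσ) := RF_of_equiv e (RF_subgroup hRF H)
    have h2 : FP (Asc σ hσ) := FP_of_equiv e (hRS Q H hFP hH)
    obtain ⟨j, γ, hj, h⟩ := hDN σ hσ ((hST σ hσ).1.1 h1)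
    exact hS6 GG σ hσ ((hsurj σ hσ).1 h1) j γ hj h h2
  refine ⟨?_, hsurj, hno, ?_⟩
  · intro Q _ hRF i hi σ t ht
    have hσ : Function.Injective σ := by
      intro x y hxy
      apply hi
      have h1 := ht x
      have h2 := ht y
      rw [hxy, ← h2] at h1
      exact mul_left_cancel (mul_right_cancel h1)
    obtain ⟨j, γ, hj, h⟩ := hDN σ hσ (hdense Q hRF i hi σ t ht)
    exact ⟨surj_of_iterate hj h, j, γ, hj, h⟩
  · intro G _ hA hS hFP N _ hN H hH σ hσ
    have hQ : FP (G ⧸ N) := by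
      apply qf G N hFP
      obtain ⟨S, hS⟩ := hN
      refine ⟨S, ?_⟩
      apply le_antisymm
      · rw [← hS, Subgroup.closure_le]
        exact Subgroup.subset_normalClosure
      · apply Subgroup.normalClosure_le_normal
        rw [← hS]
        exact Subgroup.subset_closure
    exact hno (G ⧸ N) (rf_quot hA hS N hN) hQ H hH σ hσ

end Pool.Agent.Helper62.GR
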