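import Pool.Agent.Helper62.GR.Basic

/-!
# Project GR (MP_08df5f_al): words in the generators, and the notions used in the packets
-/

set_option autoImplicit false

namespace Pool.Agent.Helper62.GR

open Equiv

/-- the letters -/
inductive Lt
  | a | b | c | d
deriving DecidableEq

/-- the generator of a letter -/
def lt : Lt → Perm X
  | .a => ga
  | .b => gs 0
  | .c => gs 1
  | .d => gs 2

/-- the value of a word -/
def ev : List Lt → Perm X
  | [] => 1
  | l :: w => lt l * ev w

/-- the letter is `a` -/
def isA : Lt → Bool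
  | .a => true
  | _ => false

/-- the parity of the number of the letters `a` -/
def par : List Lt → Bool
  | [] => false
  | l :: w => xor (isA l) (par w)

/-- the section of a letter -/
def secl : Bool → Lt → List Lt
  | _, .a => []
  | false, .b => [.a]
  | true, .b => [.c]
  | false, .c => [.a]
  | true, .c => [.d]
  | false, .d => []
  | true, .d => [.b]

/-- the section of a word: `ev w (cn i x) = cn (xor i (par w)) (ev (sec i w) x)` -/
def sec (i : Bool) : List Lt → List Lt
  | [] => []
  | l :: w => secl (xor i (par w)) l ++ sec i w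

/-- reduced multiplication by a letter -/
def rc : Lt → List Lt → List Lt
  | .a, .a :: w => w
  | .b, .b :: w => w
  | .b, .c :: w => .d :: w
  | .b, .d :: w => .c :: w
  | .c, .c :: w => w
  | .c, .b :: w => .d :: w
  | .c, .d :: w => .b :: w
  | .d, .d :: w => w
  | .d, .b :: w => .c :: w
  | .d, .c :: w => .b :: w
  | l, w => l :: w

/-- reduction of a word -/
def red : List Lt → List Lt
  | [] => []
  | l :: w => rc l (red w)

/-- alternating words: of two consecutive letters exactly one is `a` -/
def alt : List Lt → Bool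
  | [] => true
  | [_] => true
  | x :: y :: w => xor (isA x) (isA y) && alt (y :: w)

/-- the weights -/
def wtl : Lt → ℕ
  | .a => 5
  | .b => 6
  | .c => 4
  | .d => 2

/-- the weight of a word -/
def wt : List Lt → ℕ
  | [] => 0
  | l :: w => wtl l + wt w

/-- the transformation of packet TW -/
def TT (w : List Lt) : List Lt := red ((sec false w).reverse ++ sec true w)

/-- an automorphism of the tree with `f Γ f⁻¹ ≤ Γ` -/
def Nm (f : Perm X) : Prop :=
  (∀ n x y, Agr n (f x) (f y) ↔ Agr n x y) ∧ ∀ g ∈ GG, f * g * f⁻¹ ∈ GG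

/-- continuity -/
def CtX (f : Perm X) : Prop := ∀ x n, ∃ k, ∀ y, Agr k x y → Agr n (f x) (f y)

/-- a homeomorphism with `f Γ f⁻¹ ≤ Γ`, dense -/
def SN (f : Perm X) : Prop :=
  CtX f ∧ CtX f⁻¹ ∧ (∀ g ∈ GG, f * g * f⁻¹ ∈ GG) ∧
    ∀ n, ∀ g ∈ GG, ∃ h ∈ GG, ∀ x, Agr n ((f * h * f⁻¹) x) (g x)

/-- `Up f h`: `h` is the section of `f` at a vertex `1^n` fixed by `f` -/
inductive Up : Perm X → Perm X → Prop
  | refl (f : Perm X) : Up f f
  | step (g0 g1 h : Perm X) : Up g1 h → Up (pr g0 g1) h

/-- the image of `σ` is dense -/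
def Dns (σ : GG →* GG) : Prop :=
  ∀ n (g : GG), ∃ h : GG, ∀ x : X, Agr n ((σ h : Perm X) x) ((g : Perm X) x)

end Pool.Agent.Helper62.GR
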