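import Pool.Agent.Helper62.GR.Defs

/-!
# Project GR (MP_08df5f_al): basic facts on binary sequences and the generators
-/

set_option autoImplicit false

namespace Pool.Agent.Helper62.GR

open Equiv

/-- put the letter `i` in front of the sequence `x` -/
def cn (i : Bool) (x : X) : X
  | 0 => i
  | n + 1 => x n

/-- remove the first letter -/
def tl (x : X) : X := fun n => x (n + 1)

@[simp] theorem cn_zero (i : Bool) (x : X) : cn i x 0 = i := rfl
@[simp] theorem cn_succ (i : Bool) (x : X) (n : ℕ) : cn i x (n + 1) = x n := rfl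
@[simp] theorem tl_apply (x : X) (n : ℕ) : tl x n = x (n + 1) := rfl
@[simp] theorem tl_cn (i : Bool) (x : X) : tl (cn i x) = x := rfl

@[simp] theorem cn_tl (x : X) : cn (x 0) (tl x) = x := by
  funext n
  cases n <;> rfl

theorem cn_inj {i j : Bool} {x y : X} (h : cn i x = cn j y) : i = j ∧ x = y :=
  ⟨congrFun h 0, by funext n; exact congrFun h (n + 1)⟩

/-- agreement of the first `n` letters -/
def Agr (n : ℕ) (x y : X) : Prop := ∀ i, i < n → x i = y i

theorem Agr.refl (n : ℕ) (x : X) : Agr n x x := fun _ _ => rfl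
theorem Agr.symm {n : ℕ} {x y : X} (h : Agr n x y) : Agr n y x := fun i hi => (h i hi).symm
theorem Agr.trans {n : ℕ} {x y z : X} (h : Agr n x y) (h' : Agr n y z) : Agr n x z :=
  fun i hi => (h i hi).trans (h' i hi)
theorem Agr.mono {n m : ℕ} {x y : X} (h : Agr n x y) (hm : m ≤ n) : Agr m x y :=
  fun i hi => h i (by omega)
theorem Agr_zero (x y : X) : Agr 0 x y := fun i hi => by omega

theorem Agr_cn {n : ℕ} {i j : Bool} {x y : X} : Agr (n + 1) (cn i x) (cn j y) ↔ i = j ∧ Agr n x y := by
  constructor
  · intro h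
    exact ⟨h 0 (by omega), fun k hk => h (k + 1) (by omega)⟩
  · rintro ⟨h1, h2⟩ k hk
    cases k with
    | zero => exact h1
    | succ k => exact h2 k (by omega)

theorem Agr_succ {n : ℕ} {x y : X} : Agr (n + 1) x y ↔ x 0 = y 0 ∧ Agr n (tl x) (tl y) := by
  rw [← cn_tl x, ← cn_tl y, Agr_cn]
  simp

theorem eq_of_Agr {x y : X} (h : ∀ n, Agr n x y) : x = y := by
  funext n
  exact h (n + 1) n (by omega)

/-- the permutation with the sections `g0`, `g1` which fixes the first letter -/
def pr (g0 g1 : Perm X) : Perm X where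
  toFun x := cn (x 0) (if x 0 = true then g1 (tl x) else g0 (tl x))
  invFun x := cn (x 0) (if x 0 = true then g1.symm (tl x) else g0.symm (tl x))
  left_inv x := by
    rcases Bool.eq_false_or_eq_true (x 0) with h | h
    · simp only [cn_zero, tl_cn, if_pos h, Equiv.symm_apply_apply, cn_tl]
    · simp only [cn_zero, tl_cn, h, Bool.false_eq_true, if_false, Equiv.symm_apply_apply]
      rw [← h, cn_tl]
  right_inv x := by
    rcases Bool.eq_false_or_eq_true (x 0) with h | h
    · simp only [cn_zero, tl_cn, if_pos h, Equiv.apply_symm_apply, cn_tl]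
    · simp only [cn_zero, tl_cn, h, Bool.false_eq_true, if_false, Equiv.apply_symm_apply]
      rw [← h, cn_tl]

@[simp] theorem pr_false (g0 g1 : Perm X) (x : X) : pr g0 g1 (cn false x) = cn false (g0 x) := rfl
@[simp] theorem pr_true (g0 g1 : Perm X) (x : X) : pr g0 g1 (cn true x) = cn true (g1 x) := rfl

theorem pr_apply (g0 g1 : Perm X) (x : X) :
    pr g0 g1 x = cn (x 0) (if x 0 = true then g1 (tl x) else g0 (tl x)) := rfl

@[simp] theorem pr_zero (g0 g1 : Perm X) (x : X) : pr g0 g1 x 0 = x 0 := rfl

theorem perm_ext {f g : Perm X} (h : ∀ i x, f (cn i x) = g (cn i x)) : f = g := by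
  ext1 x
  rw [← cn_tl x]
  exact h _ _

theorem pr_mul (g0 g1 h0 h1 : Perm X) : pr g0 g1 * pr h0 h1 = pr (g0 * h0) (g1 * h1) := by
  apply perm_ext
  rintro (_ | _) x <;> simp

theorem pr_one : pr 1 1 = 1 := by
  apply perm_ext
  rintro (_ | _) x <;> simp

theorem pr_inv (g0 g1 : Perm X) : (pr g0 g1)⁻¹ = pr g0⁻¹ g1⁻¹ := by
  rw [inv_eq_iff_mul_eq_one, pr_mul, mul_inv_cancel, mul_inv_cancel, pr_one]

theorem pr_pow (g0 g1 : Perm X) (n : ℕ) : pr g0 g1 ^ n = pr (g0 ^ n) (g1 ^ n) := by
  induction n with
  | zero => simp [pr_one]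
  | succ n ih => rw [pow_succ, pow_succ, pow_succ, ih, pr_mul]

theorem pr_inj {g0 g1 h0 h1 : Perm X} (h : pr g0 g1 = pr h0 h1) : g0 = h0 ∧ g1 = h1 := by
  constructor
  · ext1 x
    have := congrArg (fun f : Perm X => f (cn false x)) h
    exact (cn_inj this).2
  · ext1 x
    have := congrArg (fun f : Perm X => f (cn true x)) h
    exact (cn_inj this).2

@[simp] theorem ga_cn (i : Bool) (x : X) : ga (cn i x) = cn (!i) x := by
  funext n
  cases n <;> rfl

theorem ga_apply_zero (x : X) : ga x 0 = !x 0 := rfl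
theorem ga_tl (x : X) : tl (ga x) = tl x := rfl

theorem ga_mul_ga : ga * ga = 1 := by
  apply perm_ext
  intro i x
  simp

theorem ga_inv : ga⁻¹ = ga := by
  rw [inv_eq_iff_mul_eq_one, ga_mul_ga]

theorem ga_mul_pr (g0 g1 : Perm X) : ga * pr g0 g1 = pr g1 g0 * ga := by
  apply perm_ext
  rintro (_ | _) x <;> simp

/-- a permutation never is both of the form `pr` and `ga * pr` -/
theorem pr_ne (g0 g1 h0 h1 : Perm X) : pr g0 g1 ≠ ga * pr h0 h1 := by
  intro h
  have := congrArg (fun f : Perm X => f (cn false fun _ => true)) h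
  simp only [pr_false, Perm.mul_apply, ga_cn] at this
  exact absurd (cn_inj this).1 (by simp)

theorem gs_mul_gs (s : ℕ) : gs s * gs s = 1 := by
  ext1 x
  exact gsF_gsF s x

theorem gs_inv (s : ℕ) : (gs s)⁻¹ = gs s := by
  rw [inv_eq_iff_mul_eq_one, gs_mul_gs]

theorem gs_cn_false (s : ℕ) (x : X) :
    gs s (cn false x) = cn false (if s % 3 = 2 then x else ga x) := by
  funext n
  cases n with
  | zero => rfl
  | succ n =>
    show gsF s (cn false x) (n + 1) = _
    simp only [gsF, cn_succ]
    cases n with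
    | zero =>
      by_cases h : s % 3 = 2
      · simp [h]
      · simp only [cn_zero, true_and, Nat.not_lt_zero, IsEmpty.forall_iff, implies_true, h,
          if_false]
        rw [if_pos (by rw [Nat.zero_add]; exact h)]
        rfl
    | succ n =>
      rw [if_neg]
      · split_ifs <;> rfl
      · rintro ⟨-, h2, -⟩
        exact absurd (h2 0 (by omega)) (by simp)

theorem gs_cn_true (s : ℕ) (x : X) : gs s (cn true x) = cn true (gs (s + 1) x) := by
  funext n
  cases n with
  | zero => rfl
  | succ n =>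
    show gsF s (cn true x) (n + 1) = gsF (s + 1) x n
    cases n with
    | zero =>
      simp [gsF]
    | succ n =>
      simp only [gsF, cn_succ]
      have h1 : (x n = false ∧ (∀ i, i < n + 1 → cn true x i = true) ∧ (n + 1 + s) % 3 ≠ 2) ↔
          (x n = false ∧ (∀ i, i < n → x i = true) ∧ (n + (s + 1)) % 3 ≠ 2) := by
        constructor
        · rintro ⟨h1, h2, h3⟩
          exact ⟨h1, fun i hi => h2 (i + 1) (by omega), by rwa [show n + (s + 1) = n + 1 + s by ring]⟩
        · rintro ⟨h1, h2, h3⟩
          refine ⟨h1, fun i hi => ?_, by rwa [show n + 1 + s = n + (s + 1) by ring]⟩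
          cases i with
          | zero => rfl
          | succ i => exact h2 i (by omega)
      rw [if_congr h1 rfl rfl]

theorem gs_eq_pr (s : ℕ) : gs s = pr (if s % 3 = 2 then 1 else ga) (gs (s + 1)) := by
  apply perm_ext
  rintro (_ | _) x
  · rw [gs_cn_false, pr_false]
    split_ifs <;> rfl
  · rw [gs_cn_true, pr_true]

theorem gs_add_three (s : ℕ) : gs (s + 3) = gs s := by
  ext1 x
  funext n
  show gsF (s + 3) x n = gsF s x n
  cases n with
  | zero => rfl
  | succ n =>
    simp only [gsF]
    rw [show (n + (s + 3)) % 3 = (n + s) % 3 by omega]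

theorem gs_mod (s : ℕ) : gs s = gs (s % 3) := by
  induction s using Nat.strong_induction_on with
  | _ s ih =>
    by_cases h : s < 3
    · rw [Nat.mod_eq_of_lt h]
    · obtain ⟨t, rfl⟩ := Nat.exists_eq_add_of_le (not_lt.1 h)
      rw [Nat.add_comm 3 t, gs_add_three, ih t (by omega)]
      congr 1
      omega

theorem gs_congr {s t : ℕ} (h : s % 3 = t % 3) : gs s = gs t := by
  rw [gs_mod s, gs_mod t, h]

/-- the product of the three generators `gs` is trivial (in any order they commute) -/
theorem gs_bcd_apply (x : X) : ∀ s, gs s (gs (s + 1) (gs (s + 2) x)) = x := by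
  have key : ∀ n (x : X) s, Agr n (gs s (gs (s + 1) (gs (s + 2) x))) x := by
    intro n
    induction n with
    | zero => exact fun x s => Agr_zero _ _
    | succ n ih =>
      intro x s
      rw [← cn_tl x]
      cases h : x 0
      · simp only [gs_cn_false]
        rw [Agr_cn]
        refine ⟨rfl, ?_⟩
        have hg : ∀ y, ga (ga y) = y := fun y => by
          rw [← Perm.mul_apply, ga_mul_ga, Perm.one_apply]
        have h3 : s % 3 = 0 ∨ s % 3 = 1 ∨ s % 3 = 2 := by omega
        rcases h3 with h3 | h3 | h3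
        · rw [if_pos (show (s + 2) % 3 = 2 by omega), if_neg (show ¬ (s + 1) % 3 = 2 by omega),
            if_neg (show ¬ s % 3 = 2 by omega), hg]
          exact Agr.refl _ _
        · rw [if_neg (show ¬ (s + 2) % 3 = 2 by omega), if_pos (show (s + 1) % 3 = 2 by omega),
            if_neg (show ¬ s % 3 = 2 by omega), hg]
          exact Agr.refl _ _
        · rw [if_neg (show ¬ (s + 2) % 3 = 2 by omega), if_neg (show ¬ (s + 1) % 3 = 2 by omega),
            if_pos h3, hg]
          exact Agr.refl _ _
      · simp only [gs_cn_true]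
        rw [Agr_cn]
        exact ⟨rfl, ih (tl x) (s + 1)⟩
  intro s
  exact eq_of_Agr fun n => key n x s

theorem gs_bcd (s : ℕ) : gs s * gs (s + 1) * gs (s + 2) = 1 := by
  ext1 x
  exact gs_bcd_apply x s

theorem gs_mul_succ (s : ℕ) : gs s * gs (s + 1) = gs (s + 2) := by
  have h := gs_bcd s
  rw [← gs_inv (s + 2)]
  exact eq_inv_of_mul_eq_one_left h

theorem gs_succ_mul (s : ℕ) : gs (s + 1) * gs s = gs (s + 2) := by
  have h := congrArg (·⁻¹) (gs_mul_succ s)
  simpa only [mul_inv_rev, gs_inv] using h

theorem gs_comm (s t : ℕ) : gs s * gs t = gs t * gs s := by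
  have key : ∀ s, gs s * gs (s + 1) = gs (s + 1) * gs s := fun s => by
    rw [gs_mul_succ, gs_succ_mul]
  have h3 : t % 3 = s % 3 ∨ t % 3 = (s + 1) % 3 ∨ s % 3 = (t + 1) % 3 := by omega
  rcases h3 with h | h | h
  · rw [gs_congr h]
  · rw [gs_congr h, key]
  · rw [gs_congr h, key]

/-- the point `ξ` fixed by the generators `gs` -/
def xi : X := fun _ => true

theorem cn_xi : cn true xi = xi := by
  funext n
  cases n <;> rfl

theorem tl_xi : tl xi = xi := rfl

theorem gs_xi (s : ℕ) : gs s xi = xi := by
  funext n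
  cases n with
  | zero => rfl
  | succ n =>
    show gsF s xi (n + 1) = xi (n + 1)
    simp [gsF, xi]

theorem ga_xi : ga xi ≠ xi := by
  intro h
  have := congrFun h 0
  rw [ga_apply_zero] at this
  simp [xi] at this

theorem gs_ne_one (s : ℕ) : gs s ≠ 1 := by
  have key : ∀ s, s % 3 ≠ 2 → gs s ≠ 1 := by
    intro s hs h
    have h1 := congrArg (fun f : Perm X => f (cn false xi)) h
    simp only [gs_cn_false, if_neg hs, Perm.one_apply] at h1
    exact ga_xi (cn_inj h1).2
  by_cases hs : s % 3 = 2
  · intro h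
    apply key (s + 1) (by omega)
    ext1 x
    have h1 := congrArg (fun f : Perm X => f (cn true x)) h
    simp only [gs_cn_true, Perm.one_apply] at h1
    exact (cn_inj h1).2
  · exact key s hs

theorem gs_inj {s t : ℕ} (h : gs s = gs t) : s % 3 = t % 3 := by
  by_contra hne
  have h3 : t % 3 = (s + 1) % 3 ∨ s % 3 = (t + 1) % 3 := by omega
  rcases h3 with h3 | h3
  · rw [gs_congr h3] at h
    have h1 := gs_mul_succ s
    rw [← h, gs_mul_gs] at h1
    exact gs_ne_one _ h1.symm
  · rw [gs_congr h3] at h
    have h1 := gs_mul_succ t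
    rw [h, gs_mul_gs] at h1
    exact gs_ne_one _ h1.symm

theorem ga_mem : ga ∈ GG := Subgroup.subset_closure (by simp)

theorem gs_mem (s : ℕ) : gs s ∈ GG := by
  rw [gs_mod]
  have : s % 3 = 0 ∨ s % 3 = 1 ∨ s % 3 = 2 := by omega
  rcases this with h | h | h <;> rw [h] <;> exact Subgroup.subset_closure (by simp)

/-- induction over the group: a predicate which holds for `1` and is stable under left multiplication
by generators holds on `GG` -/
theorem GG_induction {P : Perm X → Prop} (h1 : P 1) (ha : ∀ g ∈ GG, P g → P (ga * g))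
    (hs : ∀ s, ∀ g ∈ GG, P g → P (gs s * g)) : ∀ g ∈ GG, P g := by
  intro g hg
  induction hg using Subgroup.closure_induction_left with
  | one => exact h1
  | mul_left x hx y hy ih =>
    simp only [Set.mem_insert_iff, Set.mem_singleton_iff] at hx
    rcases hx with rfl | rfl | rfl | rfl
    · exact ha y hy ih
    · exact hs 0 y hy ih
    · exact hs 1 y hy ih
    · exact hs 2 y hy ih
  | inv_mul_cancel x hx y hy ih =>
    simp only [Set.mem_insert_iff, Set.mem_singleton_iff] at hx
    rcases hx with rfl | rfl | rfl | rfl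
    · rw [ga_inv]; exact ha y hy ih
    · rw [gs_inv]; exact hs 0 y hy ih
    · rw [gs_inv]; exact hs 1 y hy ih
    · rw [gs_inv]; exact hs 2 y hy ih

end Pool.Agent.Helper62.GR
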