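import Mathlib

/-!
# Project GR (MP_08df5f_al): the first Grigorchuk group, definitions
-/

set_option autoImplicit false

namespace Pool.Agent.Helper62.GR

open Equiv

/-- infinite binary sequences -/
abbrev X : Type := ℕ → Bool

/-- the map `a`: it changes the first letter -/
def gaF (x : X) : X
  | 0 => !x 0
  | n + 1 => x (n + 1)

/-- the maps `b`, `c`, `d` (for `s = 0, 1, 2`): if `n` is the position of the first letter `false` of `x`,
then the letter at the position `n + 1` is changed, unless `(n + s) % 3 = 2` -/
def gsF (s : ℕ) (x : X) : X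
  | 0 => x 0
  | n + 1 => if x n = false ∧ (∀ i, i < n → x i = true) ∧ (n + s) % 3 ≠ 2 then !x (n + 1)
      else x (n + 1)

theorem gaF_gaF (x : X) : gaF (gaF x) = x := by
  funext n
  cases n with
  | zero => simp [gaF]
  | succ n => simp [gaF]

theorem gsF_pre (s : ℕ) (x : X) (n : ℕ) (h : ∀ i, i < n → x i = true) : ∀ i, i ≤ n →
    gsF s x i = x i := by
  intro i hi
  cases i with
  | zero => rfl
  | succ i =>
    simp only [gsF]
    rw [if_neg]
    rintro ⟨h1, -⟩
    have := h i (by omega)
    rw [this] at h1
    exact absurd h1 (by simp)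

theorem gsF_gsF (s : ℕ) (x : X) : gsF s (gsF s x) = x := by
  have key : ∀ n, (∀ i, i < n → x i = true) ↔ (∀ i, i < n → gsF s x i = true) := by
    intro n
    induction n with
    | zero => simp
    | succ n ih =>
      constructor
      · intro h i hi
        have h1 := gsF_pre s x n (fun i hi => h i (by omega)) i (by omega)
        rw [h1]
        exact h i hi
      · intro h i hi
        have h1 := ih.2 (fun i hi => h i (by omega))
        have h2 := gsF_pre s x n h1 i (by omega)
        rw [← h2]
        exact h i hi
  funext n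
  cases n with
  | zero => rfl
  | succ n =>
    have h1 : (gsF s x n = false ∧ (∀ i, i < n → gsF s x i = true) ∧ (n + s) % 3 ≠ 2) ↔
        (x n = false ∧ (∀ i, i < n → x i = true) ∧ (n + s) % 3 ≠ 2) := by
      constructor
      · rintro ⟨h1, h2, h3⟩
        have h4 := (key n).2 h2
        exact ⟨by rw [← gsF_pre s x n h4 n le_rfl]; exact h1, h4, h3⟩
      · rintro ⟨h1, h2, h3⟩
        exact ⟨by rw [gsF_pre s x n h2 n le_rfl]; exact h1, (key n).1 h2, h3⟩
    have h2 : gsF s (gsF s x) (n + 1) = if gsF s x n = false ∧ (∀ i, i < n → gsF s x i = true) ∧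
        (n + s) % 3 ≠ 2 then !gsF s x (n + 1) else gsF s x (n + 1) := rfl
    rw [h2, if_congr h1 rfl rfl]
    have h3 : gsF s x (n + 1) = if x n = false ∧ (∀ i, i < n → x i = true) ∧
        (n + s) % 3 ≠ 2 then !x (n + 1) else x (n + 1) := rfl
    rw [h3]
    split_ifs
    · simp
    · rfl

/-- the generator `a` of the first Grigorchuk group -/
def ga : Perm X := Function.Involutive.toPerm gaF gaF_gaF

/-- the generators `b = gs 0`, `c = gs 1`, `d = gs 2` of the first Grigorchuk group -/
def gs (s : ℕ) : Perm X := Function.Involutive.toPerm (gsF s) (gsF_gsF s)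

/-- the first Grigorchuk group -/
def GG : Subgroup (Perm X) := Subgroup.closure {ga, gs 0, gs 1, gs 2}

end Pool.Agent.Helper62.GR
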