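import Pool.Agent.Helper62.GR.Main
import Pool.Agent.Helper18.GR.TW
import Pool.Agent.Helper31.GR.SE
import Pool.Agent.Helper32.GR.KS
import Pool.Agent.Helper35.GR.TR
import Pool.Agent.Helper45.GR.AU
import Pool.Agent.Helper49.GR.S4
import Pool.Agent.Helper49.GR.S6
import Pool.Agent.Helper54.GR.KU
import Pool.Agent.Helper59.GR.S3
import Pool.Agent.Helper80.GR.RS
import Pool.Agent.Helper80.GR.SG
import Pool.Agent.Helper96.GR.LT
import Pool.Agent.Helper96.GR.WO

/-!
# Project GR: the main theorem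
-/

set_option autoImplicit false

namespace Pool.Agent.Helper62.GR

theorem main : G_MAIN :=
  have hSE : G_SE := Pool.Agent.Helper31.GR.se
  have hDI : G_DI := Pool.Agent.Helper31.GR.di
  have hFIN : G_FIN := Pool.Agent.Helper31.GR.fin hSE hDI
  have hLT : G_LT := Pool.Agent.Helper96.GR.lt hSE
  have hRI : G_RI := Pool.Agent.Helper96.GR.ri hSE
  have hTR : G_TR := Pool.Agent.Helper35.GR.tr hSE hLT hRI
  have hAU : G_AU := Pool.Agent.Helper45.GR.au hSE hLT
  have hWO : G_WO := Pool.Agent.Helper96.GR.wo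
  have hSG : G_SG := Pool.Agent.Helper80.GR.sg hSE hWO
  have hNS : G_NS := Pool.Agent.Helper80.GR.ns hSE hLT
  have hS3 : G_S3 := Pool.Agent.Helper59.GR.s3 hSE hWO hNS
  have hTW : G_TW := Pool.Agent.Helper18.GR.tw hWO
  have hS4 : G_S4 := Pool.Agent.Helper49.GR.s4 hSE hWO hNS hTW
  have hS5 : G_S5 := s5 hFIN hNS
  have hRS : G_RS := Pool.Agent.Helper80.GR.rs
  have hS6 : G_S6 := Pool.Agent.Helper49.GR.s6 hRS
  have hKN : G_KN := Pool.Agent.Helper54.GR.kn
  have hKU : G_KU := Pool.Agent.Helper54.GR.ku hKN hWO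
  have hKS : G_KS := Pool.Agent.Helper32.GR.ks hKN hDI
  have hNFP : G_NFP := nfp hKN hKU hKS
  have hDN : G_DN := dn hAU hNS hSG hS3 hS4 hS5 (st hTR)
  main_of_main0 (main_of hTR hDN hRS hS6 hNFP)

end Pool.Agent.Helper62.GR
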