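import Pool.Agent.Helper62.GR.Words
import Pool.Agent.Helper62.WB.Defs

/-!
# Project GR (MP_08df5f_al): statements of the packets, with proofs

`X = ℕ → Bool` is the boundary of the binary tree, `GG` the first Grigorchuk group as a subgroup of
`Perm X`, generated by `a = ga`, `b = gs 0`, `c = gs 1`, `d = gs 2`; `gs (s + 3) = gs s`.
`cn i x` is the sequence `x` with the letter `i` in front, `pr g0 g1` the permutation with
`pr g0 g1 (cn false x) = cn false (g0 x)`, `pr g0 g1 (cn true x) = cn true (g1 x)`.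
All facts `ga_cn`, `gs_cn_false`, `gs_cn_true`, `gs_eq_pr`, `pr_mul`, `pr_inv`, `pr_pow`, `pr_inj`,
`ga_mul_pr`, `pr_ne`, `gs_mul_succ`, `gs_comm`, `gs_congr`, `gs_inj`, `GG_induction`, .. are in
`Pool/Agent/Helper62/GR/Basic.lean`; words (`Lt`, `ev`, `sec`, `red`, `alt`, `wt`), `Nm`, `SN`, `Up` are
in `Words.lean`.  In comments `b, c, d = (a, c), (a, d), (1, b)` is the usual notation
(`gs_eq_pr`).
-/

set_option autoImplicit false

namespace Pool.Agent.Helper62.GR

open Equiv Pool.Agent.Helper62.WB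

/-- PACKET SE (sections).
Proof.  (1) `GG_induction`: both generators are automorphisms of the tree (`Agr_cn`, `ga_cn`,
`gs_cn_false`, `gs_cn_true`; for `gs s` prove by induction on `n`, for all `s`:
`Agr n x y → Agr n (gs s x) (gs s y)`; the converse as `gs s` is an involution).
(2) `GG_induction`: `1 = pr 1 1`; `ga * pr g0 g1`, `ga * (ga * pr g0 g1) = pr g0 g1`;
`gs s * pr g0 g1 = pr (x * g0) (gs (s + 1) * g1)` with `x = 1` or `ga` (`gs_eq_pr`);
`gs s * (ga * pr g0 g1) = ga * pr (gs (s + 1)) x * pr g0 g1` (`ga_mul_pr`, `ga_mul_ga`).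
(3) Both parts by `GG_induction` over `g`: `1`: `pr 1 1 = 1`.  First part: given `pr h g ∈ GG`:
`pr (gs 2) ga = ga * gs 1 * ga` (as `gs 1 = pr ga (gs 2)`), so `pr (gs 2 * h) (ga * g) ∈ GG`; and
`gs s = gs (s + 2 + 1)`, `gs (s + 2) = pr x (gs s)` (`gs_congr`), so `pr (x * h) (gs s * g) ∈ GG`.
The second part follows from the first by conjugation with `ga`:
`ga * pr h g * ga = pr g h`.
(4) If `pr g0 g1 ∈ GG`, then by (2) `pr g0 g1 = pr h0 h1` with `h0, h1 ∈ GG` (the other case is excluded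
by `pr_ne`), and `pr_inj`. -/
def G_SE : Prop :=
  (∀ g ∈ GG, ∀ n x y, Agr n (g x) (g y) ↔ Agr n x y) ∧
  (∀ g ∈ GG, ∃ g0 ∈ GG, ∃ g1 ∈ GG, g = pr g0 g1 ∨ g = ga * pr g0 g1) ∧
  (∀ g ∈ GG, ∃ h ∈ GG, pr h g ∈ GG) ∧
  (∀ g ∈ GG, ∃ h ∈ GG, pr g h ∈ GG) ∧
  (∀ g0 g1, pr g0 g1 ∈ GG → g0 ∈ GG ∧ g1 ∈ GG)

/-- PACKET DI (a fact on dihedral groups of order 8).
Proof.  Let `r = a d`; `a r a = d a = r⁻¹` (as `a² = d² = 1`).  The set of the elements `r^n` and `r^n a`
(`n : ℤ`) contains `1`, `a`, `d = a r = r⁻¹ a` and is closed under left multiplication by `a`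
(`a r^n = r^(-n) a`) and `d = a r`; so it contains the closure (`Subgroup.closure_induction_left`).
`(r^n)^4 = (r^4)^n = 1`, `(r^n a)² = r^n r^(-n) = 1`. -/
def G_DI : Prop := ∀ (G : Type) [Group G] (a d : G), a * a = 1 → d * d = 1 → (a * d) ^ 4 = 1 →
  ∀ u ∈ Subgroup.closure {a, d}, u ^ 4 = 1

/-- PACKET FIN (pairs of elements; may assume SE, DI).
Proof.  Let `B` be the normal closure in the group `GG` of `b` (work with elements of the type `GG`, or
with `Subgroup (Perm X)`: `B` = closure of the `x b x⁻¹`, `x ∈ GG`).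
(1) `u^4 ∈ B` for `u ∈ GG`: in `GG ⧸ B` the images satisfy `a² = d² = 1`, `c = d` (`b c d = 1`),
`(a d)^4 = 1`: `(a d)² = pr b b` (`gs 2 = pr 1 (gs 0)`: `(ga * gs 2) * (ga * gs 2) = pr (gs 0) (gs 0)`), so
`(a d)^4 = pr (b²) (b²) = 1`.  So `GG ⧸ B` is generated by the images of `a`, `d`, and DI.
(2) For `y ∈ B`: `pr 1 y ∈ GG` and `pr y 1 ∈ GG`.  The set of the `y ∈ GG` with `pr 1 y ∈ GG` is a subgroup
(`pr_mul`), contains `b` (`gs 2 = pr 1 (gs 0)`), and if it contains `y`, then also `x y x⁻¹` for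
`x ∈ GG`: `pr h x ∈ GG` for some `h` (SE), and `pr h x * pr 1 y * (pr h x)⁻¹ = pr 1 (x y x⁻¹)`.
`pr y 1 = ga * pr 1 y * ga`.
(3) `(pr g0 g1)^4 = pr (g0^4) (g1^4) = pr (g0^4) 1 * pr 1 (g1^4)`. -/
def G_FIN : Prop := ∀ g0 ∈ GG, ∀ g1 ∈ GG, (pr g0 g1) ^ 4 ∈ GG

/-- PACKET LT (transitivity on the levels; orbit of `ξ`; may assume SE).
Proof.  First part: induction on `n`.  For `n + 1`: if `x 0 ≠ y 0`, replace `x` by `ga x`; so
`x = cn i x'`, `y = cn i y'`.  Let `g ∈ GG` with `Agr n (g x') y'`; by SE there is an element `k` of `GG` of the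
form `pr g h` (`i = false`) or `pr h g` (`i = true`), and `k (cn i x') = cn i (g x')`.
Second part: let `x k = true` for `k ≥ n`; induction on `n`, for all `x`.  `n = 0`: `x = xi`, `g = 1`.
`n + 1`: `x = cn i x'`, `g x' = xi` with `g ∈ GG`; an element `k` as above gives `k x = cn i xi`.  If
`i = true`, this is `xi` (`cn_xi`); otherwise multiply by `ga`. -/
def G_LT : Prop :=
  (∀ n x y, ∃ g ∈ GG, Agr n (g x) y) ∧
  (∀ x : X, (∃ N, ∀ n, N ≤ n → x n = true) → ∃ g ∈ GG, g x = xi)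

/-- PACKET RI (rigid stabilisers; may assume SE).
Proof.  Let `k = a b a b` and `K` the normal closure of `k` in `GG`.  (1) `pr k 1 ∈ K`: with
`a d a = pr b 1` (as `d = pr 1 b`): `b * (a d a) = pr (a b) c`, so
`(b a d a)² = pr (a b a b) (c²) = pr k 1`.  On the other hand
`(b a d a)² = b a d (a b a) d a`, `a b a = k b` (`b² = 1`), so it is `b a d k b d a`, and `b d = d b`, so it
is `(b a d) k (d b a) = (b a d) k (b a d)⁻¹ * (b a d) (d b a)`; `(b a d)⁻¹ = d a b`, and
`(b a d)(d b a) = b a b a = b k b⁻¹`, with `k = a b a b`.  So `pr k 1 ∈ K`.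
(2) For `y ∈ K`: `pr y 1 ∈ K` and `pr 1 y ∈ K`: the set of the `y ∈ GG` with `pr y 1 ∈ K` is a subgroup, contains
`k`, and with `y` contains `x y x⁻¹`, `x ∈ GG`: there is `h` with `pr x h ∈ GG` (SE), and
`pr x h * pr y 1 * (pr x h)⁻¹ = pr (x y x⁻¹) 1`, and `K` is normal.  Conjugate by `ga` for `pr 1 y`.
(3) `k ≠ 1`: `k (cn false x) = cn false (c (a x))` (`b (cn false x) = cn false (a x)`, then
`cn true (a x)`, then `cn true (c (a x))`, then `cn false (c (a x))`), and `c (a x)` has another first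
letter than `x`.  (4) By induction on `n`: for all `x` there is `g ∈ K`, `g ≠ 1`, with `g y = y` for all `y`
which do not agree with `x` up to `n`: `n = 0`: `g = k`; `n + 1`: for `x = cn i x'` take `pr g 1` or `pr 1 g`,
`g` for `x'` (`Agr_cn`). -/
def G_RI : Prop := ∀ n x, ∃ g ∈ GG, g ≠ 1 ∧ ∀ y, ¬ Agr n x y → g y = y

/-- PACKET TR (the tree; may assume SE, LT, RI).
Proof.  `T.L n = (Fin n → Bool)`, `par n v = fun i => v i.castSucc`.  Let `pre n x : Fin n → Bool` be the
first `n` letters of `x : X` (`Agr n x y ↔ pre n x = pre n y`) and `e` the map `x ↦ (n ↦ pre n x)`, a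
bijection of `X` onto `T.Bd` (inverse: `n ↦ (n+1)`-st vertex at the last letter).  `a.act n g` maps
`pre n x` to `pre n (g x)`, well-defined by SE (choose for every `v` the extension `x` by `true`).
Weakly branch: faithful: if `pre n (g x) = pre n x` for all `n`, `g x = x`; transitive: LT; the rigid
stabilisers: RI with `x` any extension of `v` (`T.anc n k w` is the restriction of `w` to the first `n`
letters). -/
def G_TR : Prop := ∃ (T : RTree) (a : TAct T GG) (e : X ≃ T.Bd), a.WeaklyBranch ∧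
  (∀ (g : GG) (x : X), e ((g : Perm X) x) = a.bd g (e x)) ∧
  (∀ n x y, (e x).1 n = (e y).1 n ↔ Agr n x y)

/-- PACKET AU (a homeomorphism which conjugates `Γ` onto a dense subgroup of `Γ` is an
automorphism of the tree; may assume SE, LT).
Proof.  (A) Let `SN f`, and `x ~ y` iff `(f⁻¹ x) 0 = (f⁻¹ y) 0`.  (A1) For `g ∈ GG`: `x ~ y ↔ g x ~ g y`: let `k` be
such that for `z` with `Agr k (g x) z`: `z ~ g x`, and the same for `g y` (`CtX f⁻¹` with `n = 1`), and
`h ∈ GG` with `Agr k ((f h f⁻¹) z) (g z)` for all `z`.  So `g x ~ (f h f⁻¹) x`, i.e.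
`(f⁻¹ (g x)) 0 = (h (f⁻¹ x)) 0`, similarly for `y`, and `(h u) 0 = (h v) 0 ↔ u 0 = v 0` (SE, `n = 1`).
(A2) `gs s x ~ x` for all `x`: `gs s` fixes `xi`; if `x ~ xi`, then `gs s x ~ gs s xi = xi`; if not, then
`gs s x` is not `~ xi` by (A1), and there are only two classes.  (A3) `ga x` is never `~ x`: otherwise, as
there are only two classes and by (A1), `ga x ~ x` for all `x` [if `ga x ~ x` for one `x`: for `y ~ x`,
`ga y ~ ga x ~ x ~ y`; for `y` not `~ x`, `ga y` is not `~ ga x ~ x`, so `ga y ~ y`], so `g x ~ x` for all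
`g ∈ GG` (`GG_induction`); for all `x`, `y` let `k` with `Agr k y z → y ~ z` and `g ∈ GG` with
`Agr k (g x) y` (LT); then `x ~ g x ~ y`.  So all points are equivalent; but `f⁻¹` is onto.
(A4) So for `g ∈ GG`, `x`: `g x ~ x ↔ (g x) 0 = x 0` (`GG_induction`: if it holds for `g`, then for `ga * g`
both sides change, for `gs s * g` none).  (A5) If `x 0 = y 0`, then `x ~ y`: let `k` be as before
for `y`; `x = cn i x'`, `y = cn i y'`, and let `g ∈ GG` with `Agr k (g x') y'` (LT), and `h ∈ GG` the element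
`pr g *` or `pr * g` (SE); then `Agr (k + 1) (h x) y` and `(h x) 0 = x 0`, so `x ~ h x ~ y`.
(A6) So `(f⁻¹ x) 0` depends only on `x 0`; as `f⁻¹` is onto, `x 0 = y 0 ↔ (f⁻¹ x) 0 = (f⁻¹ y) 0`.
(B) So `f = pr g0 g1` or `f = ga * pr g0 g1` for some permutations `g0`, `g1`.  `SN` is stable under left
multiplication by elements of `GG`; so `SN (pr g0 g1)` (`ga * f`).  Then `SN g0` and `SN g1`:
continuity is clear (`Agr_cn`); if `g ∈ GG`, let `h ∈ GG` with `pr g h ∈ GG`;
`pr (g0 g g0⁻¹) (g1 h g1⁻¹) ∈ GG`, so `g0 g g0⁻¹ ∈ GG` (SE); similarly for `g1`.  Density: given `n`, `g`, and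
`k = pr g h ∈ GG`, let `h' ∈ GG` with `Agr (n + 1) ((f h' f⁻¹) x) (k x)` for all `x`, `f = pr g0 g1`; looking at
the first letters `h'` is of the form `pr u v`, `u, v ∈ GG` (SE), and `g0 u g0⁻¹` agrees with `g` up to
level `n`; similarly for `g1`.
(C) By induction on `n`, for all `f` with `SN f`: `Agr n (f x) (f y) ↔ Agr n x y` (`Agr_succ`). -/
def G_AU : Prop := ∀ f, SN f → Nm f

/-- PACKET WO (words).
Proof.  (1), (2): induction on `w`.  (3): `ev (rc l w) = lt l * ev w` by cases (`gs_mul_gs`,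
`gs_mul_succ`, `gs_succ_mul`, `gs_congr`, `ga_mul_ga`), then induction.  (4): `alt (rc l w)` if
`alt w`, by cases on `l` and the first two letters of `w`.  (5), (6): by cases.  (7) By induction
on `w`, together with: if `alt w` and `w` does not start with `a` (or is empty or starts with `a`), a
better bound: the number `q w` of the letters `≠ a` satisfies `2 * q w ≤ w.length + 1`, and
`2 * q w ≤ w.length` if `w` is empty or starts with `a`; and `(sec i w).length ≤ q w` (each `secl`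
has length `≤ 1`, and `0` for `a`).  (8) Induction: `wt (sec false w) + wt (sec true w)` is at most the
sum over the letters `b, c, d` of `w` of `9, 7, 6` (`wt (secl false l) + wt (secl true l)`; the
parity only interchanges the two), and `7 * 9 ≤ 6 * (5 + 6)`, `7 * 7 ≤ 6 * (5 + 4)`, `7 * 6 ≤ 6 * (5 + 2)`;
in an alternating word the number of the letters `≠ a` is at most the number of the letters `a`
plus `1` (at most the number of the letters `a` if `w` is empty or starts with `a`).  (9) Every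
element of `GG` is `ev w` for some `w` (`GG_induction`), and replace `w` by `red w`.  (10) `ev` of the
reversed word: the letters are involutions. -/
def G_WO : Prop :=
  (∀ w w', ev (w ++ w') = ev w * ev w') ∧
  (∀ w i x, ev w (cn i x) = cn (xor i (par w)) (ev (sec i w) x)) ∧
  (∀ w, ev (red w) = ev w) ∧
  (∀ w, alt (red w) = true) ∧
  (∀ w, (red w).length ≤ w.length) ∧
  (∀ w, wt (red w) ≤ wt w) ∧
  (∀ w, alt w = true → ∀ i, 2 * (sec i w).length ≤ w.length + 1) ∧
  (∀ w, alt w = true → 7 * (wt (sec false w) + wt (sec true w)) ≤ 6 * (wt w + 5)) ∧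
  (∀ g ∈ GG, ∃ w, alt w = true ∧ ev w = g) ∧
  (∀ w, ev w.reverse = (ev w)⁻¹) ∧
  (∀ w, ev w ∈ GG)

/-- PACKET SG (singular points; may assume SE, WO).
Proof.  By strong induction on `ℓ`: for every alternating word `w` of length `≤ ℓ`, `g = ev w`, and `x`
as in the statement.  If the length is `≥ 2`: `x = cn i y`; `g x = x` gives `xor i (par w) = i`, so
`par w = false`, `g (cn i z) = cn i (g' z)` with `g' = ev (red (sec i w))`, `g' y = y`, and `g'` is
nontrivial near `y` (use the hypothesis for `n + 1` and `Agr_cn`); the length of `red (sec i w)` is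
smaller than that of `w` (WO).  So `y`, hence `x`, is eventually `true`.  If the length is `≤ 1`: `g = 1`:
contradiction; `g = ga`: contradicts `g x = x`; `g = gs s`: we show `x = xi` by proving
`∀ n, x n = true` by induction on `n` for all `s`, `x` (`gs s x = x`, nontrivial near `x`): if
`x = cn false y`, then `gs_cn_false`: if `s % 3 = 2`, `gs s` is the identity on the `cn false z`, against
nontriviality for `n = 1`; otherwise `ga y = y`, which is impossible.  So `x = cn true y` and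
`gs (s + 1) y = y` is nontrivial near `y` (`gs_cn_true`). -/
def G_SG : Prop := ∀ g ∈ GG, ∀ x : X, g x = x → (∀ n, ∃ y, Agr n x y ∧ g y ≠ y) →
  ∃ N, ∀ n, N ≤ n → x n = true

/-- PACKET NS (sections of normalising automorphisms; may assume SE, LT).
Proof.  (1) Apply the definition with `Agr_cn` for the first part; for `g ∈ GG` let `h` with
`pr g h ∈ GG` (SE): `pr (g0 g g0⁻¹) (g1 h g1⁻¹) = f (pr g h) f⁻¹ ∈ GG`, so `g0 g g0⁻¹ ∈ GG` (SE); similarly
for `g1`.  (2) The first letter of `f (cn i x)` depends only on `i` (`n = 1`); it is `true` for `i = true` as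
`f xi = xi`, and so `false` for `i = false` (`Agr 1 (f x) (f y) ↔ Agr 1 x y`).  So `f = pr g0 g1` with
`g_i x = tl (f (cn i x))` (a permutation with inverse `x ↦ tl (f⁻¹ (cn i x))`).  `g1 xi = xi` as
`f (cn true xi) = cn true xi`.  (3) Let `h = g0 g1⁻¹`.  `f a f⁻¹ ∈ GG` and
`a * (f a f⁻¹) = pr (g1 g0⁻¹) (g0 g1⁻¹)` (`ga_mul_pr`), so `g0 g1⁻¹ ∈ GG`.  (4) is clear.  (5) If `f xi` is in
the orbit of `xi`: `f (gs 0) f⁻¹ ∈ GG` fixes `f xi` and is nontrivial near `f xi` (`gs 0` is nontrivial near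
`xi`: for every `n` there is `y` with `Agr n xi y`, `gs 0 y ≠ y`: prove by induction on `n` for all `s`
that there is `y` with `Agr n xi y` and `gs s y ≠ y`, `gs_ne_one` for `n = 0`), so by SG `f xi` is
eventually `true`, and LT, second part. -/
def G_NS : Prop :=
  (∀ g0 g1, Nm (pr g0 g1) → Nm g0 ∧ Nm g1) ∧
  (∀ f, Nm f → f xi = xi → ∃ g0 g1, f = pr g0 g1 ∧ g1 xi = xi) ∧
  (∀ g0 g1, Nm (pr g0 g1) → g0 * g1⁻¹ ∈ GG) ∧
  (∀ f g, Nm f → Nm g → Nm (f * g)) ∧ (∀ g ∈ GG, Nm g) ∧
  (G_SG → ∀ f, Nm f → ∃ g ∈ GG, g (f xi) = xi)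

/-- PACKET S3 (some section commutes with `b`, `c`, `d`; may assume SE, WO, NS).
Proof.  (1) By strong induction on `ℓ`: if `Nm f`, `f xi = xi` and there are alternating words
`w 0, w 1, w 2` with `ev (w s) = f * gs s * f⁻¹`, the sum of the lengths being `≤ ℓ`, then there is `h` with
`Up f h`, `Nm h`, `h xi = xi` and (*) for all `s` there is `s'` with `h * gs s * h⁻¹ = gs s'`.  If all three
lengths are `≤ 1`: `f * gs s * f⁻¹` is `1`, `ga` or some `gs s'`; it is not `1` (`gs_ne_one`), and not `ga`, as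
it fixes `xi` (`gs_xi`, `ga_xi`); so `h = f`.  If some length is `≥ 2`: `f = pr g0 g1`, `Nm g1`, `g1 xi = xi`
(NS), and `gs s = pr x (gs (s + 1))`, so `f * gs s * f⁻¹ = pr * (g1 * gs (s + 1) * g1⁻¹)`, which by WO (2)
is `ev (red (sec true (w s)))`; its length is at most (length of `w s` + 1) / 2, so the sum is
smaller (no one increases, one decreases).  Induction for `g1` (`Up.step`).
(2) If `Nm h`, `h xi = xi`, (*), then `h = pr h0 h1`, and `Nm h1`, `h1 xi = xi`, (*) for `h1`: the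
section at `true` of `h * gs s * h⁻¹ = gs s'` is `h1 * gs (s + 1) * h1⁻¹ = gs (s' + 1)`.
(3) Every such `h` commutes with `gs 2`: `h * gs 2 * h⁻¹ = gs s'` has section `1` at `false`, so
`s' % 3 = 2` (`gs_eq_pr`).  Then, applying this to `h1`: `h * gs 1 * h⁻¹ = gs s'` has the section
`h1 * gs 2 * h1⁻¹ = gs 2 = gs (s' + 1)` at `true`, so `s' % 3 = 1` (`gs_inj`): every such `h` commutes with
`gs 1`; and similarly, applying this to `h1`, with `gs 0`.  `gs_mod` for general `s`. -/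
def G_S3 : Prop := ∀ f, Nm f → f xi = xi →
  ∃ h, Up f h ∧ Nm h ∧ h xi = xi ∧ ∀ s, h * gs s = gs s * h

/-- PACKET TW (the word dynamics; may assume WO).
Proof.  (1) `wt (TT w) ≤ wt (sec false w) + wt (sec true w)` (WO (6); the weight of a reversed word
is the same), so `7 * wt (TT w) ≤ 6 * (wt w + 5)` for alternating `w` (WO (8)), hence
`wt (TT w) < wt w` if `wt w ≥ 31`.  `TT w` is alternating (WO (4)).  So by strong induction on `wt w` some
iterate of `w` has weight `≤ 30`.  (2) There are 175 alternating words of weight `≤ 30` (length `≤ 9`),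
and for each of them the fifth iterate `TT^[5] w` is one of `[]`, `[a, c]`, `[a, d]`, `[b]` (checked by
computer).  Formally: a function `chk : ℕ → List Lt → Bool`, `chk 0 w = false`,
`chk (n + 1) w = (30 < wt w) || (test w && for all letters l with alt (l :: w): chk n (l :: w))`; if
`chk n w = true`, then all alternating words `v ++ w` of weight `≤ 30` pass `test`
(`wt (v ++ w) ≥ wt w`; take the last letter of `v`), and `chk 12 [] = true` by `decide`. -/
def G_TW : Prop := ∀ w, alt w = true →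
  ∃ n, TT^[n] w = [] ∨ TT^[n] w = [.a, .c] ∨ TT^[n] w = [.a, .d] ∨ TT^[n] w = [.b]

/-- PACKET S4 (some section is in `Γ`; may assume SE, WO, NS, TW).
Let `Cm h`: `Nm h`, `h xi = xi`, and `h` commutes with all `gs s`.  Proof.
(1) If `Cm h`, then `h = pr h0 h1` (NS), `h0` commutes with `ga`, and `Cm h1`: compare the sections of
`h * gs s = gs s * h` (`gs_eq_pr`, `pr_mul`, `pr_inj`; `s = 0` for `ga`, and `s + 2` for `gs s`, or
`gs_congr`).
(2) Let `Cm h`, `h = pr h0 h1`, `h1 = pr v0 v1`.  `h0` is an automorphism of the tree (`Nm h0`)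
commuting with `ga`; so `h0 = pr u u` or `h0 = ga * pr u u` (`h0` is `pr u u'` or `ga * pr u u'`, and
`ga * pr u u' = pr u' u * ga`).  So `h0 * h1⁻¹ = pr (u v0⁻¹) (u v1⁻¹)` or
`ga * pr (u v0⁻¹) (u v1⁻¹)`.  If `h0 * h1⁻¹ = ev w`, then by WO (2) `u v0⁻¹ = ev (sec false w)`,
`u v1⁻¹ = ev (sec true w)`, so `v0 v1⁻¹ = (ev (sec false w))⁻¹ * ev (sec true w) = ev (TT w)`.
(3) Uniqueness: let `Cm h`, `Cm h'`, `h = pr h0 h1`, `h' = pr h0' h1'`, `h0 h1⁻¹ = h0' h1'⁻¹`.  Then
`h = h'`: prove `Agr n (h x) (h' x)` for all such pairs and all `x` by induction on `n`.  With (2)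
(`pr_ne`, `pr_inj`) `v0 v1⁻¹ = v0' v1'⁻¹` for `h1 = pr v0 v1`, `h1' = pr v0' v1'`, so
`Agr n (h1 x) (h1' x)` for all `x` by induction, and `h0 = η h1`, `h0' = η h1'` with `η = h0 h1⁻¹ ∈ GG`
(NS), an automorphism of the tree, so `Agr n (h0 x) (h0' x)`.
(4) Let `Cm h`, `h = pr h0 h1`, `h0 h1⁻¹ = ev w`, `w` alternating (NS (3), WO (9)).  By (2) and TW, after
finitely many steps (`Up.step`) we get `h'` with `Up h h'`, `Cm h'`, `h' = pr h0' h1'` and
`h0' h1'⁻¹ = ev w'` with `w'` one of the four words.  The elements `1 = pr 1 1`, `gs 0 = pr ga (gs 1)`,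
`gs 1 = pr ga (gs 2)`, `gs 2 = pr 1 (gs 0)` satisfy `Cm`, and `1 * 1⁻¹ = ev []`,
`ga * (gs 1)⁻¹ = ev [a, c]`, `ga * (gs 2)⁻¹ = ev [a, d]`, `1 * (gs 0)⁻¹ = ev [b]`.  So `h'` is one of
them by (3), and `h' ∈ GG`. -/
def G_S4 : Prop := ∀ h, Nm h → h xi = xi → (∀ s, h * gs s = gs s * h) →
  ∃ h', Up h h' ∧ h' ∈ GG

/-- PACKET S5 (going up; may assume SE, FIN, NS).
Proof.  By induction on `Up f h` we prove: if `Nm f`, `f xi = xi` and `h ∈ GG`, then there is `j ≥ 1` with
`f^j ∈ GG`.  `refl`: `j = 1`.  `step`: `f = pr g0 g1`, `Nm g1`, `g1 xi = xi` (`f xi = xi`, `cn_xi`), so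
`g1^j ∈ GG`.  `f^j = pr (g0^j) (g1^j)` satisfies `Nm` (powers, NS (4)), so `g0^j * (g1^j)⁻¹ ∈ GG` (NS (3)), and
`g0^j ∈ GG`.  FIN: `(f^j)^4 ∈ GG`. -/
def G_S5 : Prop := ∀ f h, Up f h → Nm f → f xi = xi → h ∈ GG → ∃ j, 1 ≤ j ∧ f ^ j ∈ GG

/-- PACKET RS (subgroups of finite index of finitely presented groups).
Proof.  Let `π : F = F_k → G`, `ker π = ⟨⟨R⟩⟩`, `H' = H.comap π`, of finite index in `F`, so finitely
generated (`Subgroup.fg_of_index_ne_zero` or the instance), and free (`subgroupIsFreeOfIsFree`).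
Let `α : F_m → H'` be a surjection; as `H'` is free there is `β : H' → F_m` with `α ∘ β = id`
(`IsFreeGroup.lift`).  The composition `F_m → H' → H` is onto, and its kernel is the normal
closure of the finite set of the `x_i⁻¹ β (α x_i)` (`i < m`) and the `β (t r t⁻¹)`, `r ∈ R`, `t` in a finite
set `S` of representatives of `F ⧸ H'` (i.e. `F = H' S`; `t r t⁻¹ ∈ ker π ≤ H'`).  Indeed these
elements are in the kernel.  Let `M` be their normal closure.  Modulo `M`, `x = β (α x)` for all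
`x ∈ F_m` (the `x` with this property are a subgroup).  If `x` is in the kernel, then `y = α x ∈ ker π`
is a product of elements `(g r g⁻¹)^{±1}`, `g ∈ F`, `g = h t`, `h ∈ H'`, `t ∈ S`, so of elements
`h (t r t⁻¹)^{±1} h⁻¹`, and `β y` is a product of elements `β(h) β(t r t⁻¹)^{±1} β(h)⁻¹ ∈ M`; so
`x ∈ M`.  [`Subgroup.normalClosure` in `F` versus in `H'`: `{y ∈ H' | β y ∈ M}` maps to a subgroup of `F`
which is normalised by `H'` and contains all `g r g⁻¹`, so contains `closure (conjugatesOfSet R)`.] -/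
def G_RS : Prop := ∀ (G : Type) [Group G] (H : Subgroup G), FP G → H.FiniteIndex → FP H

/-- PACKET FPI (independence of the generators).
Proof.  `G` is finitely presented by `α : F_k → G`, `ker α = ⟨⟨R⟩⟩`, and `π : FreeGroup ι → G` is onto, `ι`
finite.  Choose homomorphisms `β : F_k → FreeGroup ι`, `π ∘ β = α`, and `γ : FreeGroup ι → F_k`,
`α ∘ γ = π` (free groups).  Let `M` be the normal closure of the finite set of the `β r`, `r ∈ R`, and the
`x_i⁻¹ β (γ x_i)`, `i ∈ ι`.  `M ≤ ker π`.  Modulo `M`, `x = β (γ x)` for all `x`.  If `π x = 1`, then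
`γ x ∈ ker α = ⟨⟨R⟩⟩`, so `β (γ x) ∈ M` (`⟨⟨R⟩⟩ ≤ M.comap β`), so `x ∈ M`. -/
def G_FPI : Prop := ∀ (G : Type) [Group G], FP G → ∀ (ι : Type) [Fintype ι]
  (π : FreeGroup ι →* G), Function.Surjective π →
  ∃ R : Finset (FreeGroup ι), π.ker = Subgroup.normalClosure (R : Set (FreeGroup ι))

/-- PACKET S6 (if a power of `σ` is inner; may assume RS; `StmtNF` and `qf : StmtQF` are proved in
`Pool/Agent/Helper35/WB/NF.lean` and `Pool/Agent/Helper62/WB/QF.lean`, `t_conj` in
`Pool/Agent/Helper62/WB/MainA.lean`).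
Proof.  Let `Q = Asc σ hσ`, `i : Γ → Q`, `t ∈ Q`, `t (i x) t⁻¹ = i (σ x)`.  As `σ` is onto,
`t⁻¹ (i x) t ∈ i Γ`, so by NF every element of `Q` is of the form `i(x) t^m`, `m : ℤ`, and with
`χ : Q → Multiplicative ℤ` (`χ ∘ i = 1`, `χ t = ofAdd 1`, `HNNExtension.lift`) and injectivity of `i` `x` and
`m` are unique.  Let `P` be the subgroup of the `q` with `j ∣ χ q`; it has finite index (comap of the
subgroup `j ℤ`).  Let `z = i(g)⁻¹ t^j`; `z (i x) z⁻¹ = i (g⁻¹ σ^j(x) g) = i x`.  Every element of `P`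
is `i(x) z^m` (`t^(j m) = (i(g) z)^m = i(g)^m z^m`), and `i(x) z^m = i(x') z^(m')` implies `m = m'`, `x = x'`
(`χ`, `j ≥ 1`).  So `P → Γ`, `i(x) z^m ↦ x`, is a surjective homomorphism with kernel `⟨z⟩`, the normal
closure of `z` in `P`.  `P` is finitely presented by RS, so `P ⧸ ⟨z⟩ ≃ Γ` is by QF (transport `FP` along
an isomorphism). -/
def G_S6 : Prop := ∀ (Γ : Type) [Group Γ] (σ : Γ →* Γ) (hσ : Function.Injective σ),
  Function.Surjective σ → ∀ (j : ℕ) (g : Γ), 1 ≤ j → (∀ x, σ^[j] x = g * x * g⁻¹) →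
  FP (Asc σ hσ) → FP Γ

/-! ### the group is not finitely presented -/

/-- the section of a letter in the free group -/
def sF (i : Bool) (l : Lt) : FreeGroup Lt := ((secl i l).map FreeGroup.of).prod

/-- the wreath recursion of a letter -/
def genF (l : Lt) : Perm (Bool × FreeGroup Lt) where
  toFun p := (xor p.1 (isA l), sF p.1 l * p.2)
  invFun p := (xor p.1 (isA l), (sF (xor p.1 (isA l)) l)⁻¹ * p.2)
  left_inv p := by
    ext <;> simp
  right_inv p := by
    ext <;> simp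

/-- the wreath recursion on the free group -/
def Ph : FreeGroup Lt →* Perm (Bool × FreeGroup Lt) := FreeGroup.lift genF

/-- the map of the free group onto `GG` -/
def piF : FreeGroup Lt →* Perm X := FreeGroup.lift lt

/-- the normal closure of `a², b², c², d², bcd` -/
def K0 : Subgroup (FreeGroup Lt) := Subgroup.normalClosure
  {FreeGroup.of .a ^ 2, FreeGroup.of .b ^ 2, FreeGroup.of .c ^ 2, FreeGroup.of .d ^ 2,
    FreeGroup.of .b * FreeGroup.of .c * FreeGroup.of .d}

/-- the sequence of kernels -/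
def KK : ℕ → Set (FreeGroup Lt)
  | 0 => K0
  | k + 1 => {w | ∀ i, ∃ v ∈ KK k, Ph w (i, 1) = (i, v)}

/-- PACKET KN (the chain of kernels).
Proof.  (0) `Ph w (i, x) = (j, v x)` if `Ph w (i, 1) = (j, v)`: `Ph w` commutes with the right
multiplication on the second factor (check for the generators, `FreeGroup.induction_on`).  And
`piF w (cn i x) = cn j (piF v x)` if `Ph w (i, 1) = (j, v)` (the same induction, with `lt l (cn i x)`
from `ga_cn`, `gs_cn_false`, `gs_cn_true`, `gs_congr`).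
(1) By induction on `k`, `KK k` is a normal subgroup: `k = 0` clear; `k + 1`: products and inverses by
(0); conjugates: if `Ph w (j, 1) = (j, v)` and `Ph u⁻¹ (i, 1) = (j, λ)`, then `Ph u (j, λ) = (i, 1)`, so
`Ph (u w u⁻¹) (i, 1) = Ph u (j, v λ) = (i, λ⁻¹ v λ)`.
(2) `KK 0 ⊆ KK 1` as `KK 1` is a normal subgroup containing the five elements: sections at
`false`, `true`: `a²: 1, 1`; `b²: a², c²`; `c²: a², d²`; `d²: 1, b²`; `bcd: a², c d b` and
`c d b = b⁻¹ (b c d) b`.  `KK k ⊆ KK (k + 1)` follows by induction.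
(3) `KK k ⊆ ker piF`: `k = 0`: `gs_bcd` etc.; `k + 1`: by (0) `piF w (cn i x) = cn i (piF v x) = cn i x`. -/
def G_KN : Prop :=
  (∀ k, ∃ S : Subgroup (FreeGroup Lt), S.Normal ∧ (S : Set (FreeGroup Lt)) = KK k) ∧
  (∀ k, KK k ⊆ KK (k + 1)) ∧ (∀ k, ∀ w ∈ KK k, piF w = 1)

/-- PACKET KU (the union of the chain; may assume KN, WO).
Proof.  For a word `w : List Lt` let `f w = (w.map FreeGroup.of).prod`.  (1) Modulo `K0` every element
of the free group is `f w` for a word `w` (`of l⁻¹ ≡ of l`), and `f (red w) ≡ f w` (`K0` is normal; the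
cases of `rc`: e.g. `b c ≡ d`, `c b ≡ d`, as `b c d`, `b²`, `c²`, `d² ∈ K0`).  (2) `Ph (f w) (i, 1) =
(xor i (par w), f (sec i w))` (induction on `w`).  (3) By strong induction on the length of the
alternating word `w`: if `ev w = piF (f w) = 1`, then `f w ∈ KK k` for some `k`.  Length `≥ 2`: `par w = false`
(`ev w (cn i x) = cn (xor i (par w)) ..`), and `ev (sec i w) = 1`; `v i = red (sec i w)` is shorter (WO (7))
so `f (v i) ∈ KK (k i)`, and `f (sec i w) ≡ f (v i)` modulo `K0 ⊆ KK (k i)`, so `f (sec i w) ∈ KK k`,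
`k` the maximum of the two numbers (KN), and `f w ∈ KK (k + 1)` by (2).  Length `≤ 1`: `w = []`, as `ga ≠ 1`
(`ga_xi`) and `gs s ≠ 1`. -/
def G_KU : Prop := ∀ w, piF w = 1 → ∃ k, w ∈ KK k

/-- PACKET KS (the chain is strictly increasing; may assume KN, DI).
Proof.  Let `φ` be the endomorphism of the free group with `a ↦ a c a`, `b ↦ d`, `c ↦ b`, `d ↦ c`, and `θ` the
one with `a ↦ d`, `b ↦ 1`, `c ↦ a`, `d ↦ a`.  Then `Ph (φ w) (true, 1) = (true, w)` and
`Ph (φ w) (false, 1) = (false, θ w)` (induction over `w`, with `Ph w (i, x) = (j, v x)` if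
`Ph w (i, 1) = (j, v)`, which is easy to show; for the generator `a`: `Ph (a c a)` maps `(false, x)` to
`(false, d x)` and `(true, x)` to `(true, a x)`).  So
(*) `φ w ∈ KK (k + 1) ↔ w ∈ KK k ∧ θ w ∈ KK k`.
`u^4 ∈ KK 1` for all `u ∈ closure {a, d}`: DI in the quotient by `KK 1`, a normal subgroup containing
`a²`, `d²` (KN) and `(a d)^4` (`Ph ((a d)²)` maps `(i, x)` to `(i, b x)`, so `Ph ((a d)^4)` maps `(i, 1)` to
`(i, b²)`, `b² ∈ KK 0`).  `(a d)^4 ∉ KK 0`: the homomorphism to `DihedralGroup 5` with `a ↦ sr 0`,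
`b ↦ 1`, `c, d ↦ sr 1` kills `a²`, `b²`, `c²`, `d²`, `b c d`, but `(a d)^4 ↦ (r 1)^4 = r 4 ≠ 1`.
Let `w k = φ^k ((a d)^4)`.  Claim: `w k ∈ KK (k + 1)` and `w k ∉ KK k`.  `k = 0`: done.  Step:
`w (k + 1) = φ (w k) ∉ KK (k + 1)` by (*).  `w k ∈ KK (k + 1)` by induction, and
`θ (w k) = (θ (φ^k (a d)))^4 ∈ KK 1 ⊆ KK (k + 1)`, as `θ (φ^k u) ∈ closure {a, d}` for all `u` if `k ≥ 1`
(`θ φ` maps `a, b, c, d` to `d a d, a, 1, a`), and `θ (a d) = d a` for `k = 0`.  So `w (k + 1) ∈ KK (k + 2)` by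
(*). -/
def G_KS : Prop := ∀ k, ∃ w, w ∈ KK (k + 1) ∧ w ∉ KK k

/-! ### the main theorem (helper62) -/

/-- packet ST (helper62): the homeomorphism -/
def G_ST : Prop := ∀ (σ : GG →* GG) (hσ : Function.Injective σ),
  (RF (Asc σ hσ) ↔ Dns σ) ∧
  (Dns σ → ∃ f : Perm X, CtX f ∧ CtX f⁻¹ ∧ ∀ g : GG, f * (g : Perm X) = (σ g : Perm X) * f)

/-- packet DN (helper62): a dense injective endomorphism has an inner power -/
def G_DN : Prop := ∀ (σ : GG →* GG), Function.Injective σ → Dns σ →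
  ∃ (j : ℕ) (γ : GG), 1 ≤ j ∧ ∀ g, σ^[j] g = γ * g * γ⁻¹

/-- packet NFP (helper62): the group is not finitely presented -/
def G_NFP : Prop := ¬ FP GG

end Pool.Agent.Helper62.GR
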