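import Pool.Agent.Helper62.GR.Defs
import Pool.Agent.Helper62.WB.Defs

/-!
# Project GR (MP_08df5f_al): the notions in the main theorem
-/

set_option autoImplicit false

namespace Pool.Agent.Helper62.GR

open Pool.Agent.Helper62.WB

/-- the first Grigorchuk group -/
def Gri : Type := GG

/-- the group structure of the first Grigorchuk group, a group of permutations of the binary
sequences -/
instance : Group Gri := inferInstanceAs (Group GG)

/-- some power of `σ` is an inner automorphism of the first Grigorchuk group -/
def InnerPower (σ : Gri →* Gri) : Prop :=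
  ∃ (j : ℕ) (γ : Gri), 1 ≤ j ∧ ∀ g, σ^[j] g = γ * g * γ⁻¹

/-- whenever the first Grigorchuk group is embedded in `Q` by `i`, and `t ∈ Q` conjugates its image into
itself, inducing the endomorphism `σ`, then `σ` is surjective (that is, `t` normalises the image), and
some power of `σ` is inner -/
def NoProperConj (Q : Type) [Group Q] : Prop :=
  ∀ i : Gri →* Q, Function.Injective i → ∀ (σ : Gri →* Gri) (t : Q),
    (∀ g, t * i g * t⁻¹ = i (σ g)) → Function.Surjective σ ∧ InnerPower σ

/-- no subgroup of finite index of `Q` is isomorphic to an ascending HNN extension of the first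
Grigorchuk group -/
def NoAsc (Q : Type) [Group Q] : Prop :=
  ∀ H : Subgroup Q, H.FiniteIndex → ∀ (σ : Gri →* Gri) (hσ : Function.Injective σ),
    IsEmpty (H ≃* Asc σ hσ)

end Pool.Agent.Helper62.GR
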